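import Mathlib
import Pool.Agent.N972.P17.Defs
import Pool.Agent.N972.P17.Defs2

/-!
# Project P17G: twists of the level 17 curve `y² = x (x + 1) (x - 16)` by POSITIVE discriminants

`A > 0` is a positive fundamental discriminant in which `17` splits (root number `+1`), `-m` a
negative one in which `17` is inert, prime to `A`, `n = A m`.  The vectors `v` of norm `n` of the two
lattices carry the genus characters `ψ_p(v)`, `p ∣ n` (`v` is nilpotent modulo `p`); the product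
`ψ_A(v) ψ_A(w)` depends only on the inner product: it is `sgn 1 A n ((n + v·w)/2)`.

This file: `A` and `m` odd.  All statements are verified numerically (`n < 4000`).
-/

set_option autoImplicit false

namespace Pool.Agent.N969.P17G

open Finset
open Pool.Agent.Z700 (hh fac)
open Pool.Agent.N969.P15 (V3 tw ep2 Qc psp un)
open Pool.Agent.N972.P17

noncomputable section

/-- a positive and a negative odd discriminant `A`, `-m`, prime to each other -/
def Pr (A m : ℕ) : Prop := Cp A ∧ Cm m ∧ Nat.Coprime A m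

/-! ### genus characters -/

/-- the product of the signs at `p` of a vector of norm `n` and a vector of norm `k² n`
(`k = 1, 2`) with inner product `b`, `T = (k n + b) / 2` (`p` odd, `p ∣ n`, `p² ∤ n`) -/
def sgp (k n p : ℕ) (T : ℤ) : ℤ :=
  if (p : ℤ) ∣ T then
    (if (p : ℤ) ∣ T / p then jacobiSym (-(k : ℤ)) p else jacobiSym (T / p * ((n / p : ℕ) : ℤ)) p)
  else jacobiSym T p

/-- the product over the primes dividing `A` -/
def sgn (k A n : ℕ) (T : ℤ) : ℤ := ∏ p ∈ A.primeFactors, sgp k n p T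

/-- the cross Gram matrix of the two lattices as `2`-neighbours: twice the inner product of `v` in
the first and `w` in the second lattice (the second lattice is spanned by `(1,1,0)/2`,
`(-3,1,0)/2`, `(1,0,1)` in the coordinates of the first) -/
def ipx (v w : V3) : ℤ :=
  v 0 * (4 * w 0 - 24 * w 1 + 10 * w 2) + v 1 * (8 * w 0 + 20 * w 1 - 14 * w 2) +
    v 2 * (-6 * w 0 + 2 * w 1 + 36 * w 2)

/-- the sum over the pairs of vectors of the first lattice of norms `n`, `k² n` -/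
def P11 (k A n : ℕ) : ℤ := ∑ v ∈ vec1 n, ∑ w ∈ vec1 (k ^ 2 * n : ℕ), sgn k A n ((k * n + ip1 v w) / 2)

/-- the sum over the pairs of vectors of the second lattice of norms `n`, `k² n` -/
def P22 (k A n : ℕ) : ℤ := ∑ v ∈ vec2 n, ∑ w ∈ vec2 (k ^ 2 * n : ℕ), sgn k A n ((k * n + ip2 v w) / 2)

/-- the sum over the pairs of vectors of the first and of the second lattice, norm `n` -/
def P12 (A n : ℕ) : ℤ := ∑ v ∈ vec1 n, ∑ w ∈ vec2 n, sgn 2 A n (2 * (2 * n + ipx v w))

/-- ORT: the signs are characters: there are sign functions with the given products, so the double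
sums are squares, and the sums over all `A ∣ D` count the vectors whose signs at `D` are prescribed
(`D ∣ n`) -/
def S_ORTG : Prop := ∀ n D : ℕ, Cm n → D ∣ n → ∃ x z : ℕ → ℤ,
  (∀ A : ℕ, A ∣ D → P11 1 A n = x A ^ 2 ∧ P22 1 A n = z A ^ 2 ∧ P12 A n = x A * z A) ∧
  x 1 = (vec1 n).card ∧ z 1 = (vec2 n).card ∧
  (2 : ℤ) ^ D.primeFactors.card ∣ ∑ A ∈ D.divisors, x A ∧
  (2 : ℤ) ^ D.primeFactors.card ∣ ∑ A ∈ D.divisors, z A

/-- VAN: only the characters of the discriminants of the class `Cp` contribute (`v ↦ -v` and the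
rotations of norm `17`) -/
def S_VANG : Prop := ∀ n A : ℕ, Cm n → A ∣ n → ¬ Cp A → P11 1 A n = 0 ∧ P22 1 A n = 0

/-- HE2: the Hecke relations at `2` with signs, `(-m / 2) = ep2 m` -/
def S_HEG : Prop := ∀ A m : ℕ, Pr A m →
  P11 2 A (A * m) = (2 - ep2 m) * P11 1 A (A * m) + P12 A (A * m) ∧
  P22 2 A (A * m) = 3 * P12 A (A * m) - ep2 m * P22 1 A (A * m)

/-! ### the bilinear identities -/

/-- the arithmetic side, `N = k n` -/
def AAg (k A n : ℕ) : ℤ := ∑ T ∈ (range (k * n)).filter (fun T => 17 ∣ T),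
  sgn k A n T * loc n (4 * (k * n - T) * T)

def S_BIL1G : Prop := ∀ A m : ℕ, Pr A m →
  3 * P11 1 A (A * m) + P22 1 A (A * m) = 12 * AAg 1 A (A * m) + 2 * rr (A * m : ℕ)

def S_BIL2G : Prop := ∀ A m : ℕ, Pr A m →
  3 * P11 2 A (A * m) + P22 2 A (A * m) = 12 * AAg 2 A (A * m) + 2 * (jacobiSym 2 A * rr (A * m : ℕ))

/-! ### the divisor sums of the indefinite side -/

/-- the left kernel symbol: the form `(a x - X y) (a' x + Y y)` modulo `p` -/
def psl (p a a' Y X : ℕ) : ℤ := if p ∣ a ∧ p ∣ a' then jacobiSym (-((X * Y : ℕ) : ℤ)) p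
  else jacobiSym ((a * a' : ℕ) : ℤ) p

/-- the divisor sum: left kernel symbols at the primes dividing `A`, right kernel symbols at the
primes dividing `m` -/
def Wg (A m S T : ℕ) : ℤ :=
  ∑ a ∈ S.divisors, ∑ a' ∈ T.divisors.filter (17 ∣ ·),
    (∏ p ∈ A.primeFactors, psl p a a' (S / a) (T / a')) *
      ∏ p ∈ m.primeFactors, psp p a a' (S / a) (T / a')

/-- the sum of the divisor sums -/
def WTg (A m N : ℕ) : ℤ := ∑ T ∈ (range N).filter (fun T => 17 ∣ T), Wg A m (N - T) T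

/-- C2: evaluation of the divisor sums, determinant `n` -/
def S_C2AG : Prop := ∀ A m : ℕ, Pr A m → ∀ T : ℕ, 0 < T → T < A * m → 17 ∣ T →
  Wg A m (A * m - T) T = - (sgn 1 A (A * m) T * loc (A * m) (4 * (A * m - T) * T))

/-- C2: evaluation of the divisor sums, determinant `2 n` -/
def S_C2BG : Prop := ∀ A m : ℕ, Pr A m → ∀ T : ℕ, 0 < T → T < 2 * (A * m) → 17 ∣ T →
  Wg A m (2 * (A * m) - T) T = - (sgn 2 A (A * m) T * loc (A * m) (4 * (2 * (A * m) - T) * T) +
    if 2 ∣ T then jacobiSym 2 A * ep2 (A * m) * (sgn 1 A (A * m) ((T / 2 : ℕ) : ℤ) *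
      loc (A * m) ((2 * (A * m) - T) * T)) else 0)

/-- C2D: the dual divisor sum (roles of `A` and `m` exchanged), determinant `n` -/
def S_C2DG : Prop := ∀ A m : ℕ, Pr A m → ∀ T : ℕ, 0 < T → T < A * m → 17 ∣ T →
  Wg m A (A * m - T) T = - (sgn 1 A (A * m) T * loc (A * m) (4 * (A * m - T) * T))

/-! ### the symbols -/

/-- the genus character at `p` of a form `(a, b, c)` whose discriminant is divisible by `p²` -/
def gen (p : ℕ) (q : ℤ × ℤ × ℤ) : ℤ :=
  if (p : ℤ) ∣ q.1 then jacobiSym q.2.2 p else jacobiSym q.1 p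

/-- the genus character -/
def gn (A : ℕ) (q : ℤ × ℤ × ℤ) : ℤ := ∏ p ∈ A.primeFactors, gen p q

/-- the forms of discriminant `A²` and level `17` -/
def FmA (A : ℕ) (q : ℤ × ℤ × ℤ) : Prop := q.2.1 ^ 2 - 4 * q.1 * q.2.2 = (A : ℤ) ^ 2 ∧ (17 : ℤ) ∣ q.1

open Classical in
/-- the number of forms changing sign between `∞` and `x / M`, weighted with the genus character of
`A > 0` and the orientation `b = ± A` modulo `17` -/
def Fg (A : ℕ) (x M : ℤ) : ℤ := ∑ᶠ q : ℤ × ℤ × ℤ,
  if FmA A q ∧ 0 < q.1 ∧ q.1 * x ^ 2 + q.2.1 * x * M + q.2.2 * M ^ 2 < 0 then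
    (if (17 : ℤ) ∣ q.2.1 - A then 1 else -1) * gn A q else 0

open Classical in
/-- the number of forms changing sign between `∞` and `x / M`, weighted with the genus character of
`-m < 0` -/
def Fd (m : ℕ) (x M : ℤ) : ℤ := ∑ᶠ q : ℤ × ℤ × ℤ,
  if FmA m q ∧ 0 < q.1 ∧ q.1 * x ^ 2 + q.2.1 * x * M + q.2.2 * M ^ 2 < 0 then gn m q else 0

/-- the boundary term at the cusp `x / M`: twice the sum of the character modulo `A` over
`0 < C < A (x / M)` -/
def bd (A : ℕ) (x M : ℤ) : ℤ :=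
  ∑ C ∈ range A, jacobiSym C A * Int.sign ((A : ℤ) * (x % M) - (C : ℤ) * M)

/-- twice the symbol of a matrix `(a, b; 17 c, d)`, `0 < d`, for `A > 0` -/
def Gg (A : ℕ) (b c d : ℤ) : ℤ := 2 * Fg A b d - bd A b d - bd A c d

/-- twice the symbol of a matrix `(a, b; 17 c, d)`, `0 < d`, for `-m < 0` -/
def Gd (m : ℕ) (b c d : ℤ) : ℤ := 2 * Fd m b d + bd m b d + bd m c d - 2 * Fd m 0 1

/-- SYM: the symbol of `A > 0` is a homomorphism on `Γ₀(17)`, odd, and vanishes on the parabolic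
elements -/
def S_SYMG : Prop := ∀ A : ℕ, Cp A → 1 < A →
  (∀ a b c d a' b' c' d' : ℤ, a * d - 17 * (b * c) = 1 → a' * d' - 17 * (b' * c') = 1 →
    0 < d → 0 < d' → 0 < 17 * c * b' + d * d' →
    Gg A (a * b' + b * d') (c * a' + d * c') (17 * c * b' + d * d') = Gg A b c d + Gg A b' c' d') ∧
  (∀ b c d : ℤ, 0 < d → Gg A (-b) (-c) d = - Gg A b c d) ∧
  Gg A 1 0 1 = 0 ∧ Gg A 0 1 1 = 0

/-- SYMD: the symbol of `-m < 0` is a homomorphism on `Γ₀(17)`, even, and vanishes on the parabolic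
elements -/
def S_SYMD : Prop := ∀ m : ℕ, Cm m →
  (∀ a b c d a' b' c' d' : ℤ, a * d - 17 * (b * c) = 1 → a' * d' - 17 * (b' * c') = 1 →
    0 < d → 0 < d' → 0 < 17 * c * b' + d * d' →
    Gd m (a * b' + b * d') (c * a' + d * c') (17 * c * b' + d * d') = Gd m b c d + Gd m b' c' d') ∧
  (∀ b c d : ℤ, 0 < d → Gd m (-b) (-c) d = Gd m b c d) ∧
  Gd m 1 0 1 = 0 ∧ Gd m 0 1 1 = 0

/-- C1: the character sum of the counting function, determinant `n` -/
def S_C1AG : Prop := ∀ A m : ℕ, Pr A m → 1 < A →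
  ∑ u ∈ un m, jacobiSym u m * Fg A u m = 2 * WTg A m (A * m)

/-- C1: the character sum of the `T₂` image, determinant `2 n` -/
def S_C1BG : Prop := ∀ A m : ℕ, Pr A m → 1 < A →
  ∑ u ∈ un m, jacobiSym u m * (Fg A (2 * u) m + Fg A u (2 * m) + Fg A (u + m) (2 * m)) =
    2 * WTg A m (2 * (A * m))

/-- C1D: the character sum of the counting function of `-m` -/
def S_C1DG : Prop := ∀ A m : ℕ, Pr A m → 1 < A →
  ∑ u ∈ un A, jacobiSym u A * Fd m u A = 2 * WTg m A (A * m)

/-- CNF: the class number formula for the boundary terms -/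
def S_CNFG : Prop := ∀ A m : ℕ, Pr A m → 1 < A →
  3 * ∑ u ∈ un m, jacobiSym u m * bd A u m = rr (A * m : ℕ) ∧
  3 * ∑ u ∈ un A, jacobiSym u A * bd m u A = - rr (A * m : ℕ) ∧
  3 * ∑ u ∈ un m, jacobiSym u m * (bd A (2 * u) m + bd A u (2 * m) + bd A (u + m) (2 * m)) =
    (jacobiSym 2 A + ep2 m) * rr (A * m : ℕ)

/-! ### the results -/

/-- EIS: the Eisenstein part vanishes (from HEG, BIL1G, BIL2G, C2AG, C2BG, C1AG, C1BG, CNFG, SYMG and
the eigenvalue `-1` of `T₂` on the odd homomorphisms): `(3 x + z)² = 0` -/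
def S_EISG : Prop := ∀ A m : ℕ, Pr A m → 1 < A →
  9 * P11 1 A (A * m) + 6 * P12 A (A * m) + P22 1 A (A * m) = 0

/-- KAP: proportionality (from SYMG, the uniqueness of the odd homomorphism, `S_DIAG` for `m` and
EISG) -/
def S_KAPG : Prop := ∀ A : ℕ, Cp A → 1 < A → ∃ c : ℚ, ∀ m : ℕ, Pr A m →
  (P11 1 A (A * m) : ℚ) = c * (cc m : ℚ) ^ 2

open Classical in
/-- the `F_2` identity behind the parity law (`l` an auxiliary prime) -/
def S_ZZ : Prop := ∀ D l : ℕ, Cp D → Nat.Prime l → Cm l → ¬ l ∣ D →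
  (Odd ((D.divisors.filter fun A => Cp A ∧ Sx A ∧ Sx (l * (D / A))).card) ↔ Qc (l * D))

/-- PAR: the parity law for positive discriminants (from ORTG, VANG, KAPG, EISG, the parity law
`S_PAR`, `S_R` for the negative discriminants and `S_ZZ`, by induction on the number of primes) -/
def S_PARG : Prop := ∀ A l : ℕ, Cp A → 1 < A → Nat.Prime l → Cm l → ¬ l ∣ A →
  ∃ y : ℤ, P11 1 A (A * l) = (2 ^ (A.primeFactors.card - 1) * y) ^ 2 ∧ (Odd y ↔ Sx A)

/-- DIAGD: the character sum of the even symbol of `-m` (from C1DG, C2DG, BIL1G, CNFG, EISG) -/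
def S_DIAGD : Prop := ∀ A m : ℕ, Pr A m → 1 < A →
  ∑ u ∈ un A, jacobiSym u A * (2 * Fd m u A + 2 * bd m u A) = - (4 * P11 1 A (A * m))

end

end Pool.Agent.N969.P17G
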