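import Mathlib
import Pool.Agent.N969.P15.Defs2
import Pool.Agent.N969.P17G.Defs

/-!
# Project P17G: even products `n = A m` (`A` even or `m` even)

Same notation as in `Defs`; the sign at `2` is the Hilbert symbol `(T, -n)_2`.
All statements are verified numerically (`n < 4000`).
-/

set_option autoImplicit false

namespace Pool.Agent.N969.P17G

open Finset
open Pool.Agent.Z700 (hh fac)
open Pool.Agent.N969.P15 (V3 tw ep2 Qc Qe psp un Ev tb c2 chE psp2)
open Pool.Agent.N972.P17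

noncomputable section

/-- the positive even fundamental discriminants in which `17` splits -/
def CpE (A : ℕ) : Prop := ∃ M : ℕ, A = 4 * M ∧ Cpe M

/-- a positive and a negative discriminant `A`, `-m`, prime to each other, with even product -/
def PrE (A m : ℕ) : Prop := ((CpE A ∧ Cm m) ∨ (Cp A ∧ Cme m)) ∧ Nat.Coprime A m

/-! ### genus characters -/

/-- the Hilbert symbol `(2, -n)_2`, `n = 4 n0`, `n0 = 1, 2 mod 4` squarefree -/
def t2 (n : ℕ) : ℤ := if n % 8 = 4 then (if n % 32 = 4 then 1 else -1)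
  else (if n / 8 % 8 = 1 ∨ n / 8 % 8 = 7 then 1 else -1)

/-- the sign at `2`: `(T, -n)_2` for `T ≠ 0` -/
def sg2 (k n : ℕ) (T : ℤ) : ℤ := if T = 0 then c2 n (-1) * t2 n ^ (k - 1)
  else c2 n (T / 2 ^ padicValInt 2 T) * t2 n ^ padicValInt 2 T

/-- the product over the primes dividing `A` -/
def sgnE (k A n : ℕ) (T : ℤ) : ℤ := ∏ p ∈ A.primeFactors, if p = 2 then sg2 k n T else sgp k n p T

def P11E (k A n : ℕ) : ℤ := ∑ v ∈ vec1 n, ∑ w ∈ vec1 (k ^ 2 * n : ℕ),
  sgnE k A n ((k * n + ip1 v w) / 2)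

def P22E (k A n : ℕ) : ℤ := ∑ v ∈ vec2 n, ∑ w ∈ vec2 (k ^ 2 * n : ℕ),
  sgnE k A n ((k * n + ip2 v w) / 2)

def P12E (A n : ℕ) : ℤ := ∑ v ∈ vec1 n, ∑ w ∈ vec2 n, sgnE 2 A n (2 * (2 * n + ipx v w))

/-- ORT: the signs are characters (`A` runs over the unitary divisors) -/
def S_ORTGE : Prop := ∀ n D : ℕ, Cme n → D ∣ n → Nat.Coprime D (n / D) → ∃ x z : ℕ → ℤ,
  (∀ A : ℕ, A ∣ D → Nat.Coprime A (n / A) →
    P11E 1 A n = x A ^ 2 ∧ P22E 1 A n = z A ^ 2 ∧ P12E A n = x A * z A) ∧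
  x 1 = (vec1 n).card ∧ z 1 = (vec2 n).card ∧
  (2 : ℤ) ^ D.primeFactors.card ∣ ∑ A ∈ D.divisors.filter (fun A => Nat.Coprime A (n / A)), x A ∧
  (2 : ℤ) ^ D.primeFactors.card ∣ ∑ A ∈ D.divisors.filter (fun A => Nat.Coprime A (n / A)), z A

/-- VAN: only the pairs of discriminants of the classes contribute -/
def S_VANGE : Prop := ∀ n A : ℕ, Cme n → A ∣ n → Nat.Coprime A (n / A) → ¬ PrE A (n / A) →
  P11E 1 A n = 0 ∧ P22E 1 A n = 0

/-- HE2: the Hecke relations at `2` with signs -/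
def S_HEGE : Prop := ∀ A m : ℕ, PrE A m →
  P11E 2 A (A * m) = 2 * P11E 1 A (A * m) + P12E A (A * m) ∧
  P22E 2 A (A * m) = 3 * P12E A (A * m)

/-! ### the bilinear identities -/

/-- the arithmetic side, `N = k n` -/
def AAgE (k A n : ℕ) : ℤ := ∑ T ∈ (range (k * n)).filter (fun T => 17 ∣ T),
  sgnE k A n T * locE n (2 * T - k * n) (4 * (k * n - T) * T)

/-- the sign of a vector `w` and of `2 w`, at the primes dividing `A` -/
def e2 (A m : ℕ) : ℤ := if 2 ∣ A then ep2 m else jacobiSym 2 A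

def S_BIL1GE : Prop := ∀ A m : ℕ, PrE A m →
  3 * P11E 1 A (A * m) + P22E 1 A (A * m) = 12 * AAgE 1 A (A * m) + 2 * rr (A * m : ℕ)

def S_BIL2GE : Prop := ∀ A m : ℕ, PrE A m →
  3 * P11E 2 A (A * m) + P22E 2 A (A * m) = 12 * AAgE 2 A (A * m) + 2 * (e2 A m * rr (A * m : ℕ))

/-! ### the divisor sums of the indefinite side -/

/-- the left kernel symbol at `2` -/
def psl2 (n a a' Y X : ℕ) : ℤ := if a % 2 = 1 ∧ a' % 2 = 1 then c2 n ((a * a' : ℕ) : ℤ)
  else if a % 2 = 0 ∧ a' % 2 = 0 then c2 n (-((X * Y : ℕ) : ℤ)) else 0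

/-- the divisor sum -/
def WgE (A m S T : ℕ) : ℤ :=
  ∑ a ∈ S.divisors, ∑ a' ∈ T.divisors.filter (17 ∣ ·),
    (∏ p ∈ A.primeFactors, if p = 2 then psl2 (A * m) a a' (S / a) (T / a')
      else psl p a a' (S / a) (T / a')) *
    ∏ p ∈ m.primeFactors, if p = 2 then psp2 (A * m) a a' (S / a) (T / a')
      else psp p a a' (S / a) (T / a')

/-- the sum of the divisor sums -/
def WTgE (A m N : ℕ) : ℤ := ∑ T ∈ (range N).filter (fun T => 17 ∣ T), WgE A m (N - T) T

/-- C2: evaluation of the divisor sums, determinant `n` or `2 n` -/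
def S_C2GE : Prop := ∀ A m : ℕ, PrE A m → ∀ k : ℕ, (k = 1 ∨ k = 2) → ∀ T : ℕ, 0 < T →
  T < k * (A * m) → 17 ∣ T →
  WgE A m (k * (A * m) - T) T = - (sgnE k A (A * m) T *
    locE (A * m) (2 * T - k * (A * m : ℕ)) (4 * (k * (A * m) - T) * T))

/-! ### the symbols; `A` and `m` may be odd or even here -/

/-- the quadratic character of the positive discriminant `A` -/
def chP (A : ℕ) (u : ℤ) : ℤ := (if 2 ∣ A then c2 (3 * A) u else 1) *
  ∏ p ∈ A.primeFactors.erase 2, jacobiSym u p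

/-- the quadratic character of the negative discriminant `-m` -/
def chM (m : ℕ) (u : ℤ) : ℤ := (if 2 ∣ m then c2 m u else 1) *
  ∏ p ∈ m.primeFactors.erase 2, jacobiSym u p

/-- the genus character of a form of discriminant `A²` -/
def gnE (A : ℕ) (q : ℤ × ℤ × ℤ) : ℤ :=
  (if 2 ∣ A then (if (2 : ℤ) ∣ q.1 then c2 (3 * A) q.2.2 else c2 (3 * A) q.1) else 1) *
    ∏ p ∈ A.primeFactors.erase 2, gen p q

open Classical in
/-- the number of forms changing sign between `∞` and `x / M` -/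
def FgE (A : ℕ) (x M : ℤ) : ℤ := ∑ᶠ q : ℤ × ℤ × ℤ,
  if FmA A q ∧ 0 < q.1 ∧ q.1 * x ^ 2 + q.2.1 * x * M + q.2.2 * M ^ 2 < 0 then
    (if (17 : ℤ) ∣ q.2.1 - A then 1 else -1) * gnE A q else 0

/-- the boundary term at the cusp `x / M` -/
def bdE (A : ℕ) (x M : ℤ) : ℤ :=
  ∑ C ∈ range A, chP A C * Int.sign ((A : ℤ) * (x % M) - (C : ℤ) * M)

/-- twice the symbol of a matrix `(a, b; 17 c, d)`, `0 < d` -/
def GgE (A : ℕ) (b c d : ℤ) : ℤ := 2 * FgE A b d - bdE A b d - bdE A c d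

/-- for odd `A` these are the objects of `Defs` -/
def S_EQG : Prop := ∀ A : ℕ, Cp A → 1 < A → (∀ x M : ℤ, FgE A x M = Fg A x M) ∧
  ∀ x M : ℤ, bdE A x M = bd A x M

/-- SYM: the symbol is an odd homomorphism on `Γ₀(17)` -/
def S_SYMGE : Prop := ∀ A : ℕ, CpE A →
  (∀ a b c d a' b' c' d' : ℤ, a * d - 17 * (b * c) = 1 → a' * d' - 17 * (b' * c') = 1 →
    0 < d → 0 < d' → 0 < 17 * c * b' + d * d' →
    GgE A (a * b' + b * d') (c * a' + d * c') (17 * c * b' + d * d') =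
      GgE A b c d + GgE A b' c' d') ∧
  (∀ b c d : ℤ, 0 < d → GgE A (-b) (-c) d = - GgE A b c d) ∧
  GgE A 1 0 1 = 0 ∧ GgE A 0 1 1 = 0

/-- C1: the character sum of the counting function, determinant `n` -/
def S_C1AGE : Prop := ∀ A m : ℕ, PrE A m → 1 < A →
  ∑ u ∈ un m, chM m u * FgE A u m = 2 * WTgE A m (A * m)

/-- C1: the character sum of the `T₂` image, determinant `2 n` -/
def S_C1BGE : Prop := ∀ A m : ℕ, PrE A m → 1 < A →
  ∑ u ∈ un m, chM m u * (FgE A (2 * u) m + FgE A u (2 * m) + FgE A (u + m) (2 * m)) =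
    2 * WTgE A m (2 * (A * m))

/-- CNF: the class number formula for the boundary terms -/
def S_CNFGE : Prop := ∀ A m : ℕ, PrE A m → 1 < A →
  3 * ∑ u ∈ un m, chM m u * bdE A u m = rr (A * m : ℕ) ∧
  3 * ∑ u ∈ un m, chM m u * (bdE A (2 * u) m + bdE A u (2 * m) + bdE A (u + m) (2 * m)) =
    (chP A 2 + chM m 2) * rr (A * m : ℕ)

/-! ### the results -/

/-- EIS: the Eisenstein part vanishes -/
def S_EISGE : Prop := ∀ A m : ℕ, PrE A m → 1 < A →
  9 * P11E 1 A (A * m) + 6 * P12E A (A * m) + P22E 1 A (A * m) = 0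

/-- KAP: proportionality, for all `m` with the same constant -/
def S_KAPGE : Prop := ∀ A : ℕ, (Cp A ∨ CpE A) → 1 < A → ∃ c : ℚ,
  (∀ m : ℕ, Pr A m → (P11 1 A (A * m) : ℚ) = c * (cc m : ℚ) ^ 2) ∧
  (∀ m : ℕ, PrE A m → (P11E 1 A (A * m) : ℚ) = c * (cc m : ℚ) ^ 2)

/-! ### the criterion for positive discriminants -/

/-- the prime discriminants of the positive discriminant `A` -/
def starP (A p : ℕ) : ℤ :=
  if p = 2 then (if A % 16 = 12 then -4 else if A % 32 = 8 then 8 else -8)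
  else if p % 4 = 1 then p else -p

/-- the Kronecker symbol `(starP A q / p)` for `p ≠ q`, written additively -/
def lsP (A q p : ℕ) : ZMod 2 :=
  if p = 2 then (if starP A q % 8 = 1 ∨ starP A q % 8 = 7 then 0 else 1)
  else (if jacobiSym (starP A q) p = 1 then 0 else 1)

/-- the Rédei matrix with row sums zero -/
def LLP (A p q : ℕ) : ZMod 2 := if p = q then ∑ r ∈ A.primeFactors.erase p, lsP A r p else lsP A q p

/-- the sign of the prime discriminant -/
def alP (A q : ℕ) : ZMod 2 := if starP A q < 0 then 1 else 0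

/-- the criterion for a positive discriminant, odd or even -/
def SxP (A : ℕ) : Prop := ∀ x y : ℕ → ZMod 2,
  (∀ p ∈ A.primeFactors, nu p * x p + ∑ q ∈ A.primeFactors, LLP A p q * y q = 0) →
  (∀ q ∈ A.primeFactors, ∑ p ∈ A.primeFactors, LLP A p q * x p + alP A q * y q = 0) →
  ∀ p ∈ A.primeFactors, x p = 0 ∧ y p = 0

/-- the criteria agree for odd `A` -/
def S_SxP : Prop := ∀ A : ℕ, Cp A → (SxP A ↔ Sx A)

open Classical in
/-- the `F_2` identity behind the parity law, even discriminants -/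
def S_ZZE : Prop := ∀ D l : ℕ, CpE D → Nat.Prime l → Cm l → ¬ l ∣ D →
  (Odd ((D.divisors.filter fun A => PrE A (l * (D / A)) ∧ SxP A ∧ Sx (l * (D / A))).card) ↔
    Qe (l * D))

/-- PAR: the parity law for positive even discriminants -/
def S_PARGE : Prop := ∀ A l : ℕ, CpE A → Nat.Prime l → Cm l → ¬ l ∣ A →
  ∃ y : ℤ, P11E 1 A (A * l) = (2 ^ (A.primeFactors.card - 1) * y) ^ 2 ∧ (Odd y ↔ SxP A)

end

end Pool.Agent.N969.P17G
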